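import Mathlib

namespace Pool.Agent.H.MP_8292e8_an

open Set Filter Topology

variable {𝕜 : Type*} [RCLike 𝕜] {X : Type*} [NormedAddCommGroup X] [NormedSpace 𝕜 X]

noncomputable def P (x : ℕ → X) (G : X → StrongDual 𝕜 X) : ℕ → X × StrongDual 𝕜 X
  | n =>
    (x n - ∑ k : Fin n, (P x G k).2 (x n) • (P x G k).1,
      G (x n - ∑ k : Fin n, (P x G k).2 (x n) • (P x G k).1) -
        ∑ k : Fin n, G (x n - ∑ k : Fin n, (P x G k).2 (x n) • (P x G k).1) (P x G k).1 •
          (P x G k).2)
decreasing_by all_goals exact k.2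

theorem P_fst (x : ℕ → X) (G : X → StrongDual 𝕜 X) (n : ℕ) :
    (P x G n).1 = x n - ∑ k ∈ Finset.range n, (P x G k).2 (x n) • (P x G k).1 := by
  rw [P, Finset.sum_range]

theorem P_snd (x : ℕ → X) (G : X → StrongDual 𝕜 X) (n : ℕ) :
    (P x G n).2 = G (P x G n).1 -
      ∑ k ∈ Finset.range n, G (P x G n).1 (P x G k).1 • (P x G k).2 := by
  conv_lhs => rw [P]
  rw [Finset.sum_range, P_fst x G n, Finset.sum_range]

theorem biorth [TopologicalSpace.SeparableSpace X] :
    ∃ (e : ℕ → X) (f : ℕ → StrongDual 𝕜 X), (∀ n m, n ≠ m → f n (e m) = 0) ∧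
      (∀ n, e n ≠ 0 → f n (e n) = 1) ∧ (∀ n, e n = 0 → f n = 0) ∧
      ∀ g : StrongDual 𝕜 X, (∀ n, g (e n) = 0) → g = 0 := by
  obtain ⟨x, hx⟩ := TopologicalSpace.exists_dense_seq X
  have hG : ∀ y : X, ∃ g : StrongDual 𝕜 X, (y ≠ 0 → g y = 1) ∧ (y = 0 → g = 0) := by
    intro y
    by_cases hy : y = 0
    · exact ⟨0, fun h => absurd hy h, fun _ => rfl⟩
    · obtain ⟨g, _, hg⟩ := exists_dual_vector 𝕜 y (norm_ne_zero_iff.2 hy)
      refine ⟨(‖y‖ : 𝕜)⁻¹ • g, fun _ => ?_, fun h => absurd h hy⟩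
      have : (‖y‖ : 𝕜) ≠ 0 := by exact_mod_cast norm_ne_zero_iff.2 hy
      rw [_root_.smul_apply, hg, smul_eq_mul, inv_mul_cancel₀ this]
  choose G hG1 hG0 using hG
  set e : ℕ → X := fun n => (P x G n).1 with he
  set f : ℕ → StrongDual 𝕜 X := fun n => (P x G n).2 with hf
  have h1 : ∀ n, e n = x n - ∑ k ∈ Finset.range n, f k (x n) • e k := fun n => P_fst x G n
  have h2 : ∀ n, f n = G (e n) - ∑ k ∈ Finset.range n, G (e n) (e k) • f k :=
    fun n => P_snd x G n
  have h0 : ∀ n, e n = 0 → f n = 0 := by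
    intro n hn
    rw [h2, hn, hG0 0 rfl]; ext y; simp
  have key : ∀ n, (∀ j < n, ∀ k < n, j ≠ k → f j (e k) = 0) ∧
      ∀ j < n, e j ≠ 0 → f j (e j) = 1 := by
    intro n
    induction n with
    | zero => simp
    | succ n ih =>
      have a1 : ∀ j < n, f j (e n) = 0 := by
        intro j hj
        rw [h1 n, map_sub, map_sum, Finset.sum_eq_single j]
        · by_cases hej : e j = 0
          · simp [h0 j hej]
          · simp [ih.2 j hj hej]
        · intro k hk hkj
          rw [map_smul, ih.1 j hj k (Finset.mem_range.1 hk) hkj.symm, smul_zero]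
        · intro h; exact absurd (Finset.mem_range.2 hj) h
      have a2 : ∀ j < n, f n (e j) = 0 := by
        intro j hj
        rw [h2 n, _root_.sub_apply, _root_.sum_apply, Finset.sum_eq_single j]
        · by_cases hej : e j = 0
          · simp [hej]
          · simp [ih.2 j hj hej]
        · intro k hk hkj
          rw [_root_.smul_apply, ih.1 k (Finset.mem_range.1 hk) j hj hkj, smul_zero]
        · intro h; exact absurd (Finset.mem_range.2 hj) h
      have a3 : e n ≠ 0 → f n (e n) = 1 := by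
        intro hn
        rw [h2 n, _root_.sub_apply, _root_.sum_apply, hG1 _ hn, Finset.sum_eq_zero, sub_zero]
        intro k hk
        rw [_root_.smul_apply, a1 k (Finset.mem_range.1 hk), smul_zero]
      constructor
      · intro j hj k hk hjk
        rcases Nat.lt_succ_iff_lt_or_eq.1 hj with hj | rfl <;>
        rcases Nat.lt_succ_iff_lt_or_eq.1 hk with hk | rfl
        · exact ih.1 j hj k hk hjk
        · exact a1 j hj
        · exact a2 k hk
        · exact absurd rfl hjk
      · intro j hj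
        rcases Nat.lt_succ_iff_lt_or_eq.1 hj with hj | rfl
        · exact ih.2 j hj
        · exact a3
  refine ⟨e, f, fun n m h => (key (n + m + 1)).1 n (by omega) m (by omega) h,
    fun n => (key (n + 1)).2 n (by omega), h0, fun g hg => ?_⟩
  have h3 : ∀ n, g (x n) = 0 := by
    intro n
    have : x n = e n + ∑ k ∈ Finset.range n, f k (x n) • e k := by rw [h1 n]; abel
    rw [this]; simp [hg]
  ext y
  exact hx.induction_on (p := fun y => g y = 0) y
    (isClosed_eq g.continuous continuous_const) h3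

theorem exists_eta : ∃ η : 𝕜, η ^ 4 = 1 ∧ ‖η‖ = 1 ∧
    (∀ c : 𝕜, c ≠ 0 → ∃ r : ℕ, 0 < RCLike.re (c * η ^ r)) ∧
    ∀ c : 𝕜, ∃ u : 𝕜, u ≠ 0 ∧ ∀ m : ℕ, RCLike.re (u * ((η ^ 2) ^ m * c)) ≤ 0 := by
  rcases RCLike.I_eq_zero_or_im_I_eq_one (K := 𝕜) with h | h
  · have hre : ∀ c : 𝕜, c = (RCLike.re c : 𝕜) := by
      intro c
      conv_lhs => rw [← RCLike.re_add_im c, h]
      simp
    refine ⟨-1, by norm_num, by simp, fun c hc => ?_, fun c => ?_⟩
    · have : RCLike.re c ≠ 0 := by
        intro h0; apply hc; rw [hre c, h0]; simp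
      rcases this.lt_or_gt with h1 | h1
      · exact ⟨1, by simpa using h1⟩
      · exact ⟨0, by simpa using h1⟩
    · rcases le_total (RCLike.re c) 0 with h1 | h1
      · exact ⟨1, one_ne_zero, fun m => by simpa using h1⟩
      · exact ⟨-1, by simp, fun m => by simpa using h1⟩
  · have hI : (RCLike.I : 𝕜) ≠ 0 := by
      intro h0; rw [h0] at h; simp at h
    have h2 : (RCLike.I : 𝕜) ^ 2 = -1 := by rw [sq]; exact RCLike.I_mul_I_of_nonzero hI
    refine ⟨RCLike.I, ?_, RCLike.norm_I_of_ne_zero hI, fun c hc => ?_, fun c => ?_⟩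
    · rw [show (4:ℕ) = 2 * 2 from rfl, pow_mul, h2]; norm_num
    · by_cases h0 : RCLike.re c = 0
      · have : RCLike.im c ≠ 0 := by
          intro h1; apply hc; rw [← RCLike.re_add_im c, h0, h1]; simp
        rcases this.lt_or_gt with h1 | h1
        · exact ⟨1, by simpa [h] using h1⟩
        · refine ⟨3, ?_⟩
          rw [show (3:ℕ) = 2 + 1 from rfl, pow_add, h2]
          simpa [h] using h1
      · rcases lt_or_gt_of_ne h0 with h1 | h1
        · exact ⟨2, by rw [h2]; simpa using h1⟩
        · exact ⟨0, by simpa using h1⟩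
    · by_cases hc : c = 0
      · exact ⟨1, one_ne_zero, fun m => by simp [hc]⟩
      · refine ⟨RCLike.I * (starRingEnd 𝕜) c, mul_ne_zero hI (by simpa using hc), fun m => ?_⟩
        rw [h2]
        have : RCLike.I * (starRingEnd 𝕜) c * ((-1) ^ m * c)
            = RCLike.I * (((-1) ^ m * ‖c‖ ^ 2 : ℝ) : 𝕜) := by
          push_cast
          rw [← RCLike.conj_mul c]; ring
        rw [this]; simp only [RCLike.mul_re, RCLike.I_re, RCLike.ofReal_im]; simp

theorem main [NormedSpace ℝ X] [IsScalarTower ℝ 𝕜 X] [CompleteSpace X]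
    [TopologicalSpace.SeparableSpace X] [Nontrivial X] :
    ∃ S : X →L[𝕜] X, (∃ x, Dense (convexHull ℝ (Set.range fun n : ℕ => (S ^ n) x))) ∧
      ¬ ∃ x, Dense (convexHull ℝ (Set.range fun n : ℕ => ((S ^ 2) ^ n) x)) := by
  obtain ⟨e, f, h1, h2, h0, hd⟩ := biorth (𝕜 := 𝕜) (X := X)
  obtain ⟨η, η4, ηn, ηb, ηc⟩ := exists_eta (𝕜 := 𝕜)
  set d : ℕ → ℝ := fun n => (1 / 2) ^ n / (1 + ∑ k ∈ Finset.range (n + 1), ‖f k‖ * ‖e k‖)
    with hdd
  have hs0 : ∀ n, 0 ≤ ∑ k ∈ Finset.range n, ‖f k‖ * ‖e k‖ :=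
    fun n => Finset.sum_nonneg fun k _ => by positivity
  have dpos : ∀ n, 0 < d n := fun n => by
    have := hs0 (n + 1)
    simp only [hdd]; positivity
  have danti : StrictAnti d := by
    refine strictAnti_nat_of_succ_lt fun n => ?_
    simp only [hdd]
    have a := hs0 (n + 1)
    have b : 0 ≤ ‖f (n + 1)‖ * ‖e (n + 1)‖ := by positivity
    rw [Finset.sum_range_succ _ (n + 1), div_lt_div_iff₀ (by positivity) (by positivity), pow_succ]
    have c : (0:ℝ) < (1 / 2) ^ n := by positivity
    nlinarith [mul_nonneg c.le a, mul_nonneg c.le b]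
  have dle : ∀ n, d n * (‖f n‖ * ‖e n‖) ≤ (1 / 2) ^ n := by
    intro n
    simp only [hdd]
    have a := hs0 n
    have b : 0 ≤ ‖f n‖ * ‖e n‖ := by positivity
    rw [Finset.sum_range_succ, div_mul_eq_mul_div, div_le_iff₀ (by positivity)]
    have c : (0:ℝ) < (1 / 2) ^ n := by positivity
    nlinarith [mul_nonneg c.le a]
  have hK : Summable fun n => (d n : 𝕜) • (f n).smulRight (e n) := by
    refine Summable.of_norm_bounded summable_geometric_two fun n => ?_
    rw [norm_smul, ContinuousLinearMap.norm_smulRight_apply, RCLike.norm_ofReal,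
      abs_of_pos (dpos n)]
    exact dle n
  set K : X →L[𝕜] X := ∑' n, (d n : 𝕜) • (f n).smulRight (e n) with hKd
  have hKy : ∀ y, HasSum (fun n => ((d n : 𝕜) * f n y) • e n) (K y) := by
    intro y
    have := hK.hasSum.mapL (ContinuousLinearMap.apply 𝕜 X y)
    simpa only [ContinuousLinearMap.apply_apply, _root_.smul_apply,
      ContinuousLinearMap.smulRight_apply, smul_smul] using this
  have hKe : ∀ n, K (e n) = (d n : 𝕜) • e n := by
    intro n
    refine (hKy (e n)).unique ?_
    have : ((d n : 𝕜) * f n (e n)) • e n = (d n : 𝕜) • e n := by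
      by_cases h : e n = 0
      · simp [h]
      · rw [h2 n h, mul_one]
    rw [← this]
    exact hasSum_single n fun m hm => by simp [h1 m n hm]
  have hfK : ∀ n y, f n (K y) = d n * f n y := by
    intro n y
    refine ((hKy y).mapL (f n)).unique ?_
    have : f n (((d n : 𝕜) * f n y) • e n) = d n * f n y := by
      by_cases h : e n = 0
      · simp [h0 n h]
      · rw [map_smul, h2 n h]; simp
    rw [← this]
    exact hasSum_single n fun m hm => by simp [h1 n m (Ne.symm hm)]
  set t : ℕ → ℝ := fun n => 2 + d n with ht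
  set S : X →L[𝕜] X := η • ((2 : 𝕜) • (1 : X →L[𝕜] X) + K) with hS
  have hSe : ∀ n, S (e n) = (η * t n) • e n := by
    intro n
    simp only [hS, ht, _root_.smul_apply, _root_.add_apply, hKe, one_apply_eq_self]
    push_cast
    rw [← add_smul, smul_smul]
  have hfS : ∀ n y, f n (S y) = (η * t n) * f n y := by
    intro n y
    simp only [hS, ht, _root_.smul_apply, _root_.add_apply, one_apply_eq_self, map_smul, map_add,
      hfK, smul_eq_mul]
    push_cast
    ring
  have hSe' : ∀ m n, (S ^ m) (e n) = (η * t n) ^ m • e n := by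
    intro m n
    induction m with
    | zero => simp
    | succ m ih => rw [pow_succ', mul_apply_eq_comp, ih, map_smul, hSe, smul_smul, pow_succ]
  have hfS' : ∀ m n y, f n ((S ^ m) y) = (η * t n) ^ m * f n y := by
    intro m n y
    induction m with
    | zero => simp
    | succ m ih => rw [pow_succ', mul_apply_eq_comp, hfS, ih]; ring
  refine ⟨S, ?_, ?_⟩
  · set c : ℕ → ℝ := fun n => (1 / 2) ^ n / (1 + ‖e n‖) with hc
    have cpos : ∀ n, 0 < c n := fun n => by simp only [hc]; positivity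
    have cle : ∀ n, c n * ‖e n‖ ≤ (1 / 2) ^ n := by
      intro n
      simp only [hc]
      rw [div_mul_eq_mul_div, div_le_iff₀ (by positivity)]
      have : (0:ℝ) < (1 / 2) ^ n := by positivity
      nlinarith
    have hx : Summable fun n => (c n : 𝕜) • e n := by
      refine Summable.of_norm_bounded summable_geometric_two fun n => ?_
      rw [norm_smul, RCLike.norm_ofReal, abs_of_pos (cpos n)]
      exact cle n
    set x : X := ∑' n, (c n : 𝕜) • e n with hxd
    refine ⟨x, fun y => ?_⟩
    by_contra hy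
    obtain ⟨g, u, hg1, hg2⟩ := RCLike.geometric_hahn_banach_closed_point (𝕜 := 𝕜)
      (convex_convexHull ℝ _).closure isClosed_closure hy
    have hg3 : ∀ m, RCLike.re (g ((S ^ m) x)) < u :=
      fun m => hg1 _ (subset_closure (subset_convexHull ℝ _ ⟨m, rfl⟩))
    have hg0 : ∃ n, g (e n) ≠ 0 := by
      by_contra h
      push Not at h
      have := hd g h
      have h3 := hg3 0
      rw [this] at h3 hg2
      simp at h3 hg2
      linarith
    classical
    set n0 := Nat.find hg0 with hn0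
    have hn1 : g (e n0) ≠ 0 := Nat.find_spec hg0
    have hn2 : ∀ n < n0, g (e n) = 0 := fun n hn => by simpa using Nat.find_min hg0 hn
    obtain ⟨r, hr⟩ := ηb ((c n0 : 𝕜) * g (e n0))
      (mul_ne_zero (by exact_mod_cast (cpos n0).ne') hn1)
    set a := RCLike.re ((c n0 : 𝕜) * g (e n0) * η ^ r) with ha
    have ts : 1 ≤ t (n0 + 1) := by have := dpos (n0 + 1); simp only [ht]; linarith
    have tt : t (n0 + 1) < t n0 := by
      have : d (n0 + 1) < d n0 := danti (Nat.lt_succ_self n0)
      simp only [ht]; linarith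
    have hq : 1 < t n0 / t (n0 + 1) := by rw [lt_div_iff₀ (by linarith)]; linarith
    obtain ⟨k, hk⟩ := pow_unbounded_of_one_lt ((2 * ‖g‖ + |u|) / a) hq
    set m := 4 * k + r with hm
    have hk' : (2 * ‖g‖ + |u|) < a * (t n0 / t (n0 + 1)) ^ m := by
      rw [div_lt_iff₀ hr] at hk
      have : (t n0 / t (n0 + 1)) ^ k ≤ (t n0 / t (n0 + 1)) ^ m :=
        pow_le_pow_right₀ hq.le (by omega)
      nlinarith
    have hsum : HasSum (fun n => (c n : 𝕜) * ((η * t n) ^ m * g (e n))) (g ((S ^ m) x)) := by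
      have := (hx.hasSum.mapL (S ^ m)).mapL g
      simpa only [map_smul, hSe', smul_eq_mul] using this
    have hrem := hasSum_ite_sub_hasSum hsum n0
    have hb : ‖g ((S ^ m) x) - (c n0 : 𝕜) * ((η * t n0) ^ m * g (e n0))‖
        ≤ t (n0 + 1) ^ m * ‖g‖ * 2 := by
      refine hrem.norm_le_of_bounded (hasSum_geometric_two.mul_left _) fun n => ?_
      have p0 : 0 ≤ t (n0 + 1) ^ m * ‖g‖ * (1 / 2) ^ n := by positivity
      split_ifs with hn
      · simpa using p0
      rcases lt_or_gt_of_ne hn with hn | hn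
      · simpa [hn2 n hn] using p0
      have t1 : t n ≤ t (n0 + 1) := by
        have : d n ≤ d (n0 + 1) := danti.antitone (Nat.succ_le_of_lt hn)
        simp only [ht]; linarith
      have t0 : 0 < t n := by have := dpos n; simp only [ht]; linarith
      rw [norm_mul, norm_mul, norm_pow, norm_mul, ηn, one_mul, RCLike.norm_ofReal,
        RCLike.norm_ofReal, abs_of_pos (cpos n), abs_of_pos t0]
      calc c n * (t n ^ m * ‖g (e n)‖) ≤ c n * (t (n0 + 1) ^ m * (‖g‖ * ‖e n‖)) := by
            have := cpos n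
            gcongr
            exact g.le_opNorm _
        _ = t (n0 + 1) ^ m * ‖g‖ * (c n * ‖e n‖) := by ring
        _ ≤ _ := by gcongr; exact cle n
    have hmain : RCLike.re ((c n0 : 𝕜) * ((η * t n0) ^ m * g (e n0))) = t n0 ^ m * a := by
      have : (c n0 : 𝕜) * ((η * t n0) ^ m * g (e n0))
          = ((t n0 ^ m : ℝ) : 𝕜) * ((c n0 : 𝕜) * g (e n0) * η ^ r) := by
        rw [mul_pow, hm, pow_add η, pow_mul η, η4]; push_cast; ring
      rw [this, RCLike.re_ofReal_mul]
    have h5 := (abs_le.1 ((RCLike.abs_re_le_norm _).trans hb)).1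
    rw [map_sub, hmain] at h5
    have h6 := hg3 m
    have h7 : t n0 ^ m = t (n0 + 1) ^ m * (t n0 / t (n0 + 1)) ^ m := by
      rw [← mul_pow, mul_div_cancel₀ _ (by linarith)]
    have h8 : 1 ≤ t (n0 + 1) ^ m := one_le_pow₀ ts
    have h9 := le_abs_self u
    have h10 := abs_nonneg u
    rw [h7] at h5
    nlinarith [mul_le_mul_of_nonneg_left hk'.le (zero_le_one.trans h8)]
  · rintro ⟨y, hy⟩
    have hn : ∃ n, e n ≠ 0 := by
      by_contra h
      push Not at h
      obtain ⟨z, hz⟩ := exists_ne (0 : X)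
      obtain ⟨g, _, hg⟩ := exists_dual_vector 𝕜 z (norm_ne_zero_iff.2 hz)
      rw [hd g (fun n => by simp [h n])] at hg
      exact hz (by simpa using hg.symm)
    obtain ⟨n, hn⟩ := hn
    obtain ⟨u, hu, hu'⟩ := ηc (f n y)
    have hcl : IsClosed {z : X | RCLike.re (u * f n z) ≤ 0} :=
      isClosed_le (by fun_prop) continuous_const
    have hcv : Convex ℝ {z : X | RCLike.re (u * f n z) ≤ 0} := by
      intro z hz w hw a b ha hb _
      simp only [mem_ofPred_eq] at hz hw ⊢
      have : u * f n (a • z + b • w) = (a : 𝕜) * (u * f n z) + (b : 𝕜) * (u * f n w) := by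
        rw [map_add, RCLike.real_smul_eq_coe_smul (K := 𝕜) a z,
          RCLike.real_smul_eq_coe_smul (K := 𝕜) b w, map_smul, map_smul, smul_eq_mul, smul_eq_mul]
        ring
      rw [this, map_add, RCLike.re_ofReal_mul, RCLike.re_ofReal_mul]
      nlinarith [mul_nonneg ha (neg_nonneg.2 hz), mul_nonneg hb (neg_nonneg.2 hw)]
    have hsub : convexHull ℝ (Set.range fun m : ℕ => ((S ^ 2) ^ m) y)
        ⊆ {z : X | RCLike.re (u * f n z) ≤ 0} := by
      refine convexHull_min ?_ hcv
      rintro _ ⟨m, rfl⟩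
      simp only [mem_ofPred_eq]
      rw [← pow_mul, hfS']
      have : u * ((η * t n) ^ (2 * m) * f n y)
          = ((t n ^ (2 * m) : ℝ) : 𝕜) * (u * ((η ^ 2) ^ m * f n y)) := by
        rw [mul_pow, pow_mul η]; push_cast; ring
      rw [this, RCLike.re_ofReal_mul]
      have t0 : 0 < t n := by have := dpos n; simp only [ht]; linarith
      exact mul_nonpos_of_nonneg_of_nonpos (by positivity) (hu' m)
    have := closure_minimal hsub hcl (hy (u⁻¹ • e n))
    simp only [mem_ofPred_eq, map_smul, h2 n hn, smul_eq_mul, mul_one, mul_inv_cancel₀ hu] at this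
    norm_num at this

end Pool.Agent.H.MP_8292e8_an
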